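import Mathlib
import Pool.Agent.H319R2.Orbit
import Pool.Agent.H319R2.Bohr

set_option autoImplicit false

/-!
The residues of the Collatz problem are bounded by an absolute constant.
-/

namespace Pool.Agent.H499R2.Moved.BoundedResidue2d22

open Finset

/-- The Collatz map. -/
def C (n : ℕ) : ℕ := if n % 2 = 0 then n / 2 else 3 * n + 1

/-- the number of odd terms among `n, C n, …, C^(k-1) n` -/
def odd (k n : ℕ) : ℕ := ((range k).filter fun j => (C^[j] n) % 2 = 1).card

theorem C_even {m : ℕ} (h : m % 2 = 0) : 2 * C m = m := by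
  unfold C; rw [if_pos h]; omega

theorem C_odd {m : ℕ} (h : m % 2 = 1) : C m = 3 * m + 1 := by
  unfold C; rw [if_neg (by omega)]

theorem odd_succ_even {k n : ℕ} (h : (C^[k] n) % 2 = 0) : odd (k + 1) n = odd k n := by
  unfold odd
  rw [range_add_one, filter_insert, if_neg (by omega)]

theorem odd_succ_odd {k n : ℕ} (h : (C^[k] n) % 2 = 1) : odd (k + 1) n = odd k n + 1 := by
  unfold odd
  rw [range_add_one, filter_insert, if_pos h, card_insert_of_notMem (by simp)]

/-- every term of the trajectory under `C` in terms of the accelerated map -/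
theorem traj_cases (n k : ℕ) : ∃ i : ℕ,
    (((C^[k] n : ℕ) : ℤ) = Pool.Agent.H319R2.T^[i] (n : ℤ) ∧
      k = i + Pool.Agent.H319R2.od i (n : ℤ) ∧ odd k n = Pool.Agent.H319R2.od i (n : ℤ)) ∨
    ((Pool.Agent.H319R2.T^[i] (n : ℤ)) % 2 = 1 ∧
      ((C^[k] n : ℕ) : ℤ) = 3 * Pool.Agent.H319R2.T^[i] (n : ℤ) + 1 ∧
      k = i + Pool.Agent.H319R2.od i (n : ℤ) + 1 ∧
      odd k n = Pool.Agent.H319R2.od i (n : ℤ) + 1) := by
  induction k with
  | zero => exact ⟨0, Or.inl ⟨rfl, by simp [Pool.Agent.H319R2.od], by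
      simp [Pool.Agent.H319R2.od, odd]⟩⟩
  | succ k ih =>
    obtain ⟨i, ⟨h1, h2, h3⟩ | ⟨h0, h1, h2, h3⟩⟩ := ih
    · rcases Pool.Agent.H319R2.par (Pool.Agent.H319R2.T^[i] (n : ℤ)) with h | h
      · refine ⟨i + 1, Or.inl ?_⟩
        have hc : (C^[k] n) % 2 = 0 := by omega
        rw [Pool.Agent.H319R2.od_succ_even h, odd_succ_even hc]
        refine ⟨?_, by omega, h3⟩
        rw [Function.iterate_succ_apply', Function.iterate_succ_apply']
        have a1 := C_even hc
        have a2 := Pool.Agent.H319R2.T_even h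
        omega
      · refine ⟨i, Or.inr ?_⟩
        have hc : (C^[k] n) % 2 = 1 := by omega
        rw [odd_succ_odd hc]
        refine ⟨h, ?_, by omega, by omega⟩
        rw [Function.iterate_succ_apply', C_odd hc, ← h1]
        push_cast; ring
    · refine ⟨i + 1, Or.inl ?_⟩
      have hc : (C^[k] n) % 2 = 0 := by omega
      rw [Pool.Agent.H319R2.od_succ_odd h0, odd_succ_even hc]
      refine ⟨?_, by omega, h3⟩
      rw [Function.iterate_succ_apply', Function.iterate_succ_apply']
      have a1 := C_even hc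
      have a2 := Pool.Agent.H319R2.T_odd h0
      omega

/-- conversely, the accelerated trajectory is contained in the trajectory -/
theorem accel (n i : ℕ) : Pool.Agent.H319R2.T^[i] (n : ℤ) =
    ((C^[i + Pool.Agent.H319R2.od i (n : ℤ)] n : ℕ) : ℤ) := by
  induction i with
  | zero => simp [Pool.Agent.H319R2.od]
  | succ i ih =>
    rcases Pool.Agent.H319R2.par (Pool.Agent.H319R2.T^[i] (n : ℤ)) with h | h
    · rw [Pool.Agent.H319R2.od_succ_even h]
      have e : i + 1 + Pool.Agent.H319R2.od i (n : ℤ) = (i + Pool.Agent.H319R2.od i (n : ℤ)) + 1 := by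
        ring
      rw [e, Function.iterate_succ_apply', Function.iterate_succ_apply']
      have hc : (C^[i + Pool.Agent.H319R2.od i (n : ℤ)] n) % 2 = 0 := by omega
      have a1 := C_even hc
      have a2 := Pool.Agent.H319R2.T_even h
      omega
    · rw [Pool.Agent.H319R2.od_succ_odd h]
      have e : i + 1 + (Pool.Agent.H319R2.od i (n : ℤ) + 1) =
          (i + Pool.Agent.H319R2.od i (n : ℤ)) + 1 + 1 := by ring
      rw [e, Function.iterate_succ_apply', Function.iterate_succ_apply',
        Function.iterate_succ_apply', ih]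
      set z := C^[i + Pool.Agent.H319R2.od i (n : ℤ)] n with hz
      have hc : z % 2 = 1 := by omega
      have h1 : C z = 3 * z + 1 := C_odd hc
      have h2 : 2 * C (3 * z + 1) = 3 * z + 1 := C_even (by omega)
      have h3 : 2 * Pool.Agent.H319R2.T (z : ℤ) = 3 * (z : ℤ) + 1 :=
        Pool.Agent.H319R2.T_odd (by omega)
      rw [h1]
      omega

theorem od_mono (x : ℤ) : Monotone (fun i => Pool.Agent.H319R2.od i x) := by
  apply monotone_nat_of_le_succ
  intro i
  rcases Pool.Agent.H319R2.par (Pool.Agent.H319R2.T^[i] x) with h | h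
  · simp only [Pool.Agent.H319R2.od_succ_even h]; exact le_rfl
  · simp only [Pool.Agent.H319R2.od_succ_odd h]; omega

/-- For every `η` with `0.94995... < η < 1` there is an absolute constant `A` such that: if
`n, C n, …, C^(k-1) n` are pairwise distinct and all at least `N ≥ 1`, and `o` of them are odd, then
`2 ^ (k - o) * C^k n` lies between `3 ^ o * n` and `exp (A N ^ (η - 1)) * 3 ^ o * n`.
In particular (`N = 1`) the quotient is bounded by an absolute constant. -/
theorem result_moved :
    (∀ η : ℝ, Real.binEntropy (Real.log 2 / Real.log 3) / Real.log 2 < η → η < 1 →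
      ∃ A : ℝ, ∀ n k : ℕ, 1 ≤ n → Set.InjOn (fun j => C^[j] n) (Set.Iio k) →
        ∀ N : ℝ, 1 ≤ N → (∀ j < k, N ≤ (C^[j] n : ℕ)) →
          (3 : ℝ) ^ (odd k n) * n ≤ 2 ^ (k - odd k n) * (C^[k] n : ℕ) ∧
          (2 : ℝ) ^ (k - odd k n) * (C^[k] n : ℕ) ≤
            Real.exp (A * N ^ (η - 1)) * (3 ^ (odd k n) * n)) ∧
    Real.binEntropy (Real.log 2 / Real.log 3) / Real.log 2 < 0.951 := by
  refine ⟨?_, Pool.Agent.H319R2.beta_lt⟩
  intro η hη hη1
  change Pool.Agent.H319R2.beta < η at hη
  obtain ⟨A, hA0, hA⟩ := Pool.Agent.H319R2.rigid η hη hη1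
  refine ⟨A + 1 / 3, ?_⟩
  intro n k hn hinj N hN hmin
  have hn0 : (n : ℤ) ≠ 0 := by omega
  have hodmono := od_mono (n : ℤ)
  -- lower bound, for all k
  have hlow : ∀ k : ℕ, odd k n ≤ k ∧
      (3 : ℝ) ^ (odd k n) * n ≤ 2 ^ (k - odd k n) * (C^[k] n : ℕ) := by
    intro k
    induction k with
    | zero => simp [odd]
    | succ k ih =>
      obtain ⟨ih1, ih2⟩ := ih
      rcases Nat.mod_two_eq_zero_or_one (C^[k] n) with h | h
      · rw [odd_succ_even h]
        refine ⟨by omega, ?_⟩
        rw [Function.iterate_succ_apply', Nat.succ_sub ih1, pow_succ]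
        have e : ((C^[k] n : ℕ) : ℝ) = 2 * (C (C^[k] n) : ℕ) := by
          have : (C^[k] n : ℕ) = 2 * C (C^[k] n) := (C_even h).symm
          exact_mod_cast this
        rw [e] at ih2
        linarith
      · rw [odd_succ_odd h]
        refine ⟨by omega, ?_⟩
        rw [Function.iterate_succ_apply', Nat.add_sub_add_right, pow_succ]
        have e : ((C (C^[k] n) : ℕ) : ℝ) = 3 * (C^[k] n : ℕ) + 1 := by
          have : C (C^[k] n) = 3 * (C^[k] n) + 1 := C_odd h
          rw [this]; push_cast; ring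
        rw [e]
        have : (0 : ℝ) < 2 ^ (k - odd k n) := by positivity
        nlinarith
  refine ⟨(hlow k).2, ?_⟩
  -- the estimate for the accelerated trajectory
  have hmain : ∀ i : ℕ, i + Pool.Agent.H319R2.od i (n : ℤ) ≤ k →
      (2 : ℝ) ^ i * ((Pool.Agent.H319R2.T^[i] (n : ℤ) : ℤ) : ℝ) ≤
        Real.exp (A * N ^ (η - 1)) * (3 ^ (Pool.Agent.H319R2.od i (n : ℤ)) * n) := by
    intro i hi
    have hlt : ∀ j < i, j + Pool.Agent.H319R2.od j (n : ℤ) < k := by
      intro j hj
      have := hodmono hj.le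
      simp only at this
      omega
    have hinj' : Set.InjOn (fun j => Pool.Agent.H319R2.T^[j] (n : ℤ)) (Set.Iio i) := by
      intro j hj j' hj' he
      simp only at he
      rw [accel n j, accel n j'] at he
      have he' : C^[j + Pool.Agent.H319R2.od j (n : ℤ)] n =
          C^[j' + Pool.Agent.H319R2.od j' (n : ℤ)] n := by exact_mod_cast he
      have h1 := hinj (Set.mem_Iio.2 (hlt j hj)) (Set.mem_Iio.2 (hlt j' hj')) he'
      rcases lt_trichotomy j j' with h | h | h
      · have := hodmono h.le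
        simp only at this
        omega
      · exact h
      · have := hodmono h.le
        simp only at this
        omega
    have h := hA (n : ℤ) i hn0 hinj' N hN (by
      intro j hj
      rw [accel n j]
      have := hmin _ (hlt j hj)
      have e : (((C^[j + Pool.Agent.H319R2.od j (n : ℤ)] n : ℕ) : ℤ) : ℝ) =
        ((C^[j + Pool.Agent.H319R2.od j (n : ℤ)] n : ℕ) : ℝ) := by push_cast; rfl
      rw [e, abs_of_nonneg (Nat.cast_nonneg _)]
      exact this)
    have hTpos : 0 < ((Pool.Agent.H319R2.T^[i] (n : ℤ) : ℤ) : ℝ) := by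
      have h1 := Pool.Agent.H319R2.iter_ne_zero hn0 i
      have h2 : 0 ≤ Pool.Agent.H319R2.T^[i] (n : ℤ) := by rw [accel n i]; positivity
      have h3 : 0 < Pool.Agent.H319R2.T^[i] (n : ℤ) := lt_of_le_of_ne h2 (Ne.symm h1)
      exact_mod_cast h3
    have hnpos : (0 : ℝ) < n := by exact_mod_cast hn
    have h4 := (le_abs_self _).trans h
    have e1 : Real.log ((2 : ℝ) ^ i * ((Pool.Agent.H319R2.T^[i] (n : ℤ) : ℤ) : ℝ)) ≤
        Real.log (Real.exp (A * N ^ (η - 1)) * (3 ^ (Pool.Agent.H319R2.od i (n : ℤ)) * n)) := by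
      rw [Real.log_mul (by positivity) hTpos.ne', Real.log_mul (Real.exp_pos _).ne' (by positivity),
        Real.log_mul (by positivity) hnpos.ne', Real.log_exp, Real.log_pow, Real.log_pow]
      rw [abs_of_pos hTpos] at h4
      have e2 : |(((n : ℤ) : ℤ) : ℝ)| = (n : ℝ) := by
        push_cast
        exact abs_of_pos hnpos
      rw [e2] at h4
      linarith
    exact (Real.log_le_log_iff (by positivity) (by positivity)).1 e1
  have hNη : 0 < N ^ (η - 1) := Real.rpow_pos_of_pos (by linarith) _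
  obtain ⟨i, ⟨h1, h2, h3⟩ | ⟨h0, h1, h2, h3⟩⟩ := traj_cases n k
  · have hk : k - odd k n = i := by omega
    have h := hmain i (by omega)
    have e : ((C^[k] n : ℕ) : ℝ) = ((Pool.Agent.H319R2.T^[i] (n : ℤ) : ℤ) : ℝ) := by
      rw [← h1]; push_cast; rfl
    rw [hk, h3, e]
    refine h.trans ?_
    apply mul_le_mul_of_nonneg_right _ (by positivity)
    apply Real.exp_le_exp.2
    nlinarith
  · have hk : k - odd k n = i := by omega
    have h := hmain i (by omega)
    have e : ((C^[k] n : ℕ) : ℝ) = 3 * ((Pool.Agent.H319R2.T^[i] (n : ℤ) : ℤ) : ℝ) + 1 := by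
      have : (((C^[k] n : ℕ) : ℤ) : ℝ) = 3 * ((Pool.Agent.H319R2.T^[i] (n : ℤ) : ℤ) : ℝ) + 1 := by
        rw [h1]; push_cast; ring
      rw [← this]; push_cast; rfl
    rw [hk, h3, e]
    set t : ℝ := ((Pool.Agent.H319R2.T^[i] (n : ℤ) : ℤ) : ℝ) with ht
    have htN : N ≤ t := by
      rw [ht, accel n i]
      have := hmin (i + Pool.Agent.H319R2.od i (n : ℤ)) (by omega)
      push_cast
      exact this
    have hstep : 3 * t + 1 ≤ Real.exp (1 / 3 * N ^ (η - 1)) * (3 * t) := by
      have h5 : 1 + 1 / 3 * N ^ (η - 1) ≤ Real.exp (1 / 3 * N ^ (η - 1)) := by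
        have := Real.add_one_le_exp (1 / 3 * N ^ (η - 1))
        linarith
      have h6 : 1 ≤ N ^ (η - 1) * t := by
        have h7 : N ^ (η - 1) * N ≤ N ^ (η - 1) * t := mul_le_mul_of_nonneg_left htN hNη.le
        have h8 : N ^ (η - 1) * N = N ^ η := by
          rw [← Real.rpow_add_one (by linarith)]; congr 1; ring
        have h9 : (1 : ℝ) ≤ N ^ η := Real.one_le_rpow hN (by
          have := Pool.Agent.H319R2.beta_gt
          linarith)
        linarith
      have h10 : (1 + 1 / 3 * N ^ (η - 1)) * (3 * t) ≤ Real.exp (1 / 3 * N ^ (η - 1)) * (3 * t) :=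
        mul_le_mul_of_nonneg_right h5 (by linarith)
      nlinarith
    calc (2 : ℝ) ^ i * (3 * t + 1) ≤ 2 ^ i * (Real.exp (1 / 3 * N ^ (η - 1)) * (3 * t)) :=
          mul_le_mul_of_nonneg_left hstep (by positivity)
      _ = Real.exp (1 / 3 * N ^ (η - 1)) * 3 * (2 ^ i * t) := by ring
      _ ≤ Real.exp (1 / 3 * N ^ (η - 1)) * 3 *
          (Real.exp (A * N ^ (η - 1)) * (3 ^ (Pool.Agent.H319R2.od i (n : ℤ)) * n)) :=
          mul_le_mul_of_nonneg_left h (by positivity)
      _ = Real.exp ((A + 1 / 3) * N ^ (η - 1)) *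
          (3 ^ (Pool.Agent.H319R2.od i (n : ℤ) + 1) * n) := by
          rw [add_mul, Real.exp_add, pow_succ]; ring

end Pool.Agent.H499R2.Moved.BoundedResidue2d22
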