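import Mathlib
import Pool.Agent.H319R2.GTk

set_option autoImplicit false

/-!
The number of integers up to `X` lying on cycles of the `3x+k` map.
-/

namespace Pool.Agent.Results.MP_7f88e4_nt.PeriodicCount

/-- The `3x+k` map on the integers. -/
def T (k : ℤ) (x : ℤ) : ℤ := if x % 2 = 0 then x / 2 else (3 * x + k) / 2

/-- For every `η < 1` larger than the base-two binary entropy `0.94995...` of `log 2 / log 3` there
is an absolute constant `A` such that for every `k ≡ 1, 5 mod 6` and every `X ≥ 1` at most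
`A |k| ^ (1 - η) X ^ η` integers of absolute value at most `X` are periodic points of the `3x+k`
map; `η = 0.951` is admissible. -/
theorem result :
    (∀ η : ℝ, Real.binEntropy (Real.log 2 / Real.log 3) / Real.log 2 < η → η < 1 →
      ∃ A : ℝ, ∀ k : ℤ, k % 6 = 1 ∨ k % 6 = 5 → ∀ X : ℝ, 1 ≤ X →
        (Set.ncard {x : ℤ | x ∈ Function.periodicPts (T k) ∧ |(x : ℝ)| ≤ X} : ℝ) ≤
          A * |(k : ℝ)| ^ (1 - η) * X ^ η) ∧
    Real.binEntropy (Real.log 2 / Real.log 3) / Real.log 2 < 0.951 := by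
  classical
  refine ⟨?_, Pool.Agent.H319R2.beta_lt⟩
  intro η hη hη1
  change Pool.Agent.H319R2.beta < η at hη
  obtain ⟨A, hA0, hA⟩ := Pool.Agent.H319R2.Tk.sparse η hη hη1
  refine ⟨A, fun k hk X hX => ?_⟩
  set S : Set ℤ := {x : ℤ | x ∈ Function.periodicPts (T k) ∧ |(x : ℝ)| ≤ X} with hS
  have hfin : S.Finite := by
    apply (Set.finite_Icc (-⌈X⌉) ⌈X⌉).subset
    intro y hy
    have h := hy.2
    rw [abs_le] at h
    have h1 := Int.le_ceil X
    constructor
    · have : (-(⌈X⌉ : ℝ)) ≤ y := by linarith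
      exact_mod_cast this
    · have : (y : ℝ) ≤ ⌈X⌉ := by linarith
      exact_mod_cast this
  rw [Set.ncard_eq_toFinset_card S hfin]
  apply hA k (by omega) (Function.periodicPts (T k)) (Pool.Agent.H319R2.G.tame_periodic (T k)) X hX
  intro y hy
  rw [Set.Finite.mem_toFinset] at hy
  exact hy

end Pool.Agent.Results.MP_7f88e4_nt.PeriodicCount
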