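import Pool.Agent.H366R2.DensFinal

set_option autoImplicit false

/-!
The Collatz map on the integers: the basin of every nonzero cycle, and more generally the set of
the integers whose trajectory joins a given nonzero trajectory, has positive lower density.
-/

namespace Pool.Agent.H499R2.Moved.PositiveBasinsD02

open Filter

/-- the Collatz map on the integers -/
def C (x : ℤ) : ℤ := if x % 2 = 0 then x / 2 else 3 * x + 1

/-- the union of the five cycles of the problem -/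
def Z : Set ℤ := {1, 4, 2, -1, -5, -14, -7, -20, -10, -17, -50, -25, -74, -37, -110, -55, -164, -82,
  -41, -122, -61, -182, -91, -272, -136, -68, -34, 0}

/-- the trajectory of `x` reaches one of the five cycles -/
def Known (x : ℤ) : Prop := ∃ k : ℕ, C^[k] x ∈ Z

/-- the lower density of a set of integers: the lower limit of the number of elements of absolute
value at most `X`, divided by `X` -/
noncomputable def lowerDensity (A : Set ℤ) : ℝ :=
  liminf (fun X : ℝ => ({n : ℤ | ((|n| : ℤ) : ℝ) ≤ X ∧ n ∈ A}.ncard : ℝ) / X) atTop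

theorem C_eq : C = Pool.Agent.H366R2.PDK.Cz := rfl

theorem Z_step {x : ℤ} (hx : x ∈ Z) : C x ∈ Z ∨ C (C x) ∈ Z := by
  simp only [Z, Set.mem_insert_iff, Set.mem_singleton_iff] at hx ⊢
  rcases hx with h | h | h | h | h | h | h | h | h | h | h | h | h | h | h | h | h | h | h | h | h |
    h | h | h | h | h | h | h <;> subst h <;> simp [C]

theorem known_succ {x : ℤ} (h : Known x) : Known (C x) := by
  obtain ⟨k, hk⟩ := h
  rcases k with _ | k
  · rcases Z_step hk with h | h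
    · exact ⟨0, h⟩
    · exact ⟨1, h⟩
  · exact ⟨k, by rwa [Function.iterate_succ_apply] at hk⟩

theorem known_iter {x : ℤ} (h : Known x) (j : ℕ) : Known (C^[j] x) := by
  induction j with
  | zero => exact h
  | succ j ih => rw [Function.iterate_succ_apply']; exact known_succ ih

theorem known_of_iter {x : ℤ} {j : ℕ} (h : Known (C^[j] x)) : Known x := by
  obtain ⟨k, hk⟩ := h
  exact ⟨k + j, by rwa [Function.iterate_add_apply]⟩

/-- every nonzero trajectory contains a number of the same sign not divisible by 3 -/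
theorem exists_prime_to_three (m : ℤ) (hm : m ≠ 0) : ∃ i, 0 < C^[i] m * m ∧ ¬ (3 : ℤ) ∣ C^[i] m := by
  obtain ⟨N, hN⟩ : ∃ N : ℕ, m.natAbs = N := ⟨_, rfl⟩
  induction N using Nat.strong_induction_on generalizing m with
  | _ N ih =>
    by_cases h3 : (3 : ℤ) ∣ m
    · rcases Int.emod_two_eq_zero_or_one m with h2 | h2
      · have hT : C m = m / 2 := by unfold C; rw [if_pos h2]
        obtain ⟨i, hi1, hi2⟩ := ih (m / 2).natAbs (by omega) (m / 2) (by omega) rfl
        refine ⟨i + 1, ?_, ?_⟩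
        · rw [Function.iterate_succ_apply, hT]
          have h4 : m = 2 * (m / 2) := by omega
          rw [h4] at hi1 ⊢
          rw [Int.mul_ediv_cancel_left _ (by norm_num : (2 : ℤ) ≠ 0)] at hi1 ⊢
          nlinarith
        · rw [Function.iterate_succ_apply, hT]; exact hi2
      · have hT : C m = 3 * m + 1 := by unfold C; rw [if_neg (by omega)]
        refine ⟨1, ?_, ?_⟩
        · rw [Function.iterate_one, hT]
          rcases lt_or_gt_of_ne hm with h | h
          · nlinarith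
          · nlinarith
        · rw [Function.iterate_one, hT]; omega
    · exact ⟨0, by simpa using (mul_self_pos.2 hm), h3⟩

/-- linear lower bound for the number of integers of the sign of `a` reaching `a` -/
theorem reach (a : ℤ) (ha : ¬ (3 : ℤ) ∣ a) : ∃ c L X0 : ℝ, 0 < c ∧ ∀ X : ℝ, X0 ≤ X →
    ∃ S : Finset ℤ, (∀ n ∈ S, ((|n| : ℤ) : ℝ) ≤ X ∧ 0 < n * a ∧
      ∃ j : ℕ, (j : ℝ) ≤ L * Real.log ((|n| : ℤ) : ℝ) ∧ C^[j] n = a) ∧ c * X ≤ S.card := by
  obtain ⟨c, L, X0, hc, _, h⟩ := Pool.Agent.H366R2.PDK.dens_k_log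
    Pool.Agent.H366R2.PDK.decay 1 (by norm_num) (by norm_num) a ha
  refine ⟨c, 2 * L, X0, hc, fun X hX => ?_⟩
  obtain ⟨S, hS, hcard⟩ := h X hX
  refine ⟨S, fun n hn => ?_, hcard⟩
  obtain ⟨h1, h2, j, h3, h4⟩ := hS n hn
  obtain ⟨i, hi, h5⟩ := Pool.Agent.H366R2.PDK.Cz_of_TK j n
  refine ⟨h1, h2, i, ?_, by rw [C_eq, h5, h4]⟩
  have : (i : ℝ) ≤ 2 * j := by exact_mod_cast hi
  linarith

theorem lowerDensity_pos (A : Set ℤ) {c X0 : ℝ} (hc : 0 < c)
    (h : ∀ X : ℝ, X0 ≤ X → ∃ S : Finset ℤ, (∀ n ∈ S, ((|n| : ℤ) : ℝ) ≤ X ∧ n ∈ A) ∧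
      c * X ≤ S.card) : 0 < lowerDensity A := by
  refine Pool.Agent.H366R2.PDK.liminf_pos_of (X0 := X0) hc (fun X hX => ?_)
    (fun X hX => Pool.Agent.H366R2.PDK.ncard_abs_le _ hX)
  obtain ⟨S, hS, hcard⟩ := h X hX
  refine hcard.trans ?_
  have h1 : (S : Set ℤ) ⊆ {n : ℤ | ((|n| : ℤ) : ℝ) ≤ X ∧ n ∈ A} := fun z hz => hS z hz
  have h2 := Set.ncard_le_ncard h1 (Pool.Agent.H366R2.PDK.finite_abs_le _ X)
  rw [Set.ncard_coe_finset] at h2
  exact_mod_cast h2

/-- merging with the trajectory of `m` -/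
theorem merge (m : ℤ) (hm : m ≠ 0) : ∃ c L X0 : ℝ, 0 < c ∧ ∀ X : ℝ, X0 ≤ X →
    ∃ S : Finset ℤ, (∀ n ∈ S, ((|n| : ℤ) : ℝ) ≤ X ∧ 0 < n * m ∧
      ∃ j k : ℕ, (j : ℝ) ≤ L * Real.log ((|n| : ℤ) : ℝ) ∧ C^[j] n = C^[k] m) ∧
      c * X ≤ S.card := by
  obtain ⟨i, hi1, hi2⟩ := exists_prime_to_three m hm
  obtain ⟨c, L, X0, hc, h⟩ := reach (C^[i] m) hi2
  refine ⟨c, L, X0, hc, fun X hX => ?_⟩
  obtain ⟨S, hS, hcard⟩ := h X hX
  refine ⟨S, fun n hn => ?_, hcard⟩
  obtain ⟨h1, h2, j, h3, h4⟩ := hS n hn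
  refine ⟨h1, ?_, j, i, h3, h4⟩
  have h5 : 0 < (n * m) * (C^[i] m * C^[i] m) := by
    have e : (n * m) * (C^[i] m * C^[i] m) = (n * C^[i] m) * (C^[i] m * m) := by ring
    rw [e]; exact mul_pos h2 hi1
  by_contra hcon
  push Not at hcon
  have := mul_nonpos_of_nonpos_of_nonneg hcon (mul_self_nonneg (C^[i] m))
  linarith

/-- (1) For every integer `a` not divisible by 3 there is `L` such that the set of the integers `n`
of the sign of `a` with `C^j(n) = a` for some `j ≤ L log |n|` has positive lower density.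
(2) For every nonzero integer `m` there is `L` such that the set of the integers `n` of the sign of
`m` with `C^j(n) = C^k(m)` for some `j ≤ L log |n|` and some `k` has positive lower density.
(3) If the trajectory of `m` reaches none of the five known cycles then the same holds for a set of
integers `n` of the sign of `m` of positive lower density. -/
theorem result_moved :
    (∀ a : ℤ, ¬ (3 : ℤ) ∣ a → ∃ L : ℝ, 0 < lowerDensity {n : ℤ | 0 < n * a ∧
      ∃ j : ℕ, (j : ℝ) ≤ L * Real.log ((|n| : ℤ) : ℝ) ∧ C^[j] n = a}) ∧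
    (∀ m : ℤ, m ≠ 0 → ∃ L : ℝ, 0 < lowerDensity {n : ℤ | 0 < n * m ∧
      ∃ j k : ℕ, (j : ℝ) ≤ L * Real.log ((|n| : ℤ) : ℝ) ∧ C^[j] n = C^[k] m}) ∧
    ∀ m : ℤ, ¬ Known m → 0 < lowerDensity {n : ℤ | 0 < n * m ∧ ¬ Known n} := by
  refine ⟨fun a ha => ?_, fun m hm => ?_, fun m hm => ?_⟩
  · obtain ⟨c, L, X0, hc, h⟩ := reach a ha
    exact ⟨L, lowerDensity_pos _ hc h⟩
  · obtain ⟨c, L, X0, hc, h⟩ := merge m hm
    exact ⟨L, lowerDensity_pos _ hc h⟩
  · have hm0 : m ≠ 0 := by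
      rintro rfl
      exact hm ⟨0, by simp [Z]⟩
    obtain ⟨c, L, X0, hc, h⟩ := merge m hm0
    refine lowerDensity_pos (X0 := X0) _ hc fun X hX => ?_
    obtain ⟨S, hS, hcard⟩ := h X hX
    refine ⟨S, fun n hn => ?_, hcard⟩
    obtain ⟨h1, h2, j, k, _, h4⟩ := hS n hn
    refine ⟨h1, h2, fun hk => hm ?_⟩
    have h5 := known_iter hk j
    rw [h4] at h5
    exact known_of_iter h5

end Pool.Agent.H499R2.Moved.PositiveBasinsD02
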