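import Pool.Agent.H366R2.DensFinal

set_option autoImplicit false

/-!
A positive proportion of the positive integers satisfies the Collatz conjecture; more generally
every positive integer `m` has a trajectory which a positive proportion of the positive integers
joins.
-/

namespace Pool.Agent.H499R2.Moved.PositiveProportion2d22

open Filter

/-- the Collatz map -/
def T (n : ℕ) : ℕ := if n % 2 = 0 then n / 2 else 3 * n + 1

theorem T_eq : T = Pool.Agent.H366R2.PDK.Cn := rfl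

/-- every trajectory contains a number not divisible by 3 -/
theorem exists_prime_to_three (m : ℕ) (hm : 0 < m) : ∃ i, 0 < T^[i] m ∧ ¬ 3 ∣ T^[i] m := by
  induction m using Nat.strong_induction_on with
  | _ m ih =>
    by_cases h3 : 3 ∣ m
    · rcases Nat.mod_two_eq_zero_or_one m with h2 | h2
      · have hT : T m = m / 2 := by unfold T; rw [if_pos h2]
        obtain ⟨i, hi1, hi2⟩ := ih (m / 2) (by omega) (by omega)
        refine ⟨i + 1, ?_, ?_⟩
        · rw [Function.iterate_succ_apply, hT]; exact hi1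
        · rw [Function.iterate_succ_apply, hT]; exact hi2
      · have hT : T m = 3 * m + 1 := by unfold T; rw [if_neg (by omega)]
        refine ⟨1, ?_, ?_⟩
        · rw [Function.iterate_one, hT]; omega
        · rw [Function.iterate_one, hT]; omega
    · exact ⟨0, hm, h3⟩

/-- the case of a number not divisible by 3 -/
theorem reach (a : ℕ) (ha0 : 0 < a) (ha : ¬ 3 ∣ a) : ∃ C : ℝ,
    0 < liminf (fun x : ℝ => ({n : ℕ | 0 < n ∧ (n : ℝ) ≤ x ∧
      ∃ k : ℕ, (k : ℝ) ≤ C * Real.log n ∧ T^[k] n = a}.ncard : ℝ) / x) atTop := by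
  obtain ⟨c, C, X0, hc, _, h⟩ := Pool.Agent.H366R2.PDK.dens_nat
    Pool.Agent.H366R2.PDK.decay a ha0 ha
  refine ⟨C, Pool.Agent.H366R2.PDK.liminf_nat_of
    (fun n => ∃ k : ℕ, (k : ℝ) ≤ C * Real.log n ∧ T^[k] n = a) (X0 := X0) hc fun X hX => ?_⟩
  obtain ⟨S, hS, hcard⟩ := h X hX
  refine ⟨S, fun n hn => ?_, hcard⟩
  obtain ⟨h1, h2, _, h3⟩ := hS n hn
  exact ⟨h1, h2, h3⟩

/-- There is `C` such that the set of the positive integers `n` with `T^k(n) = 1` for some
`k ≤ C log n` has positive lower density. More generally, for every positive integer `m` there is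
`C` such that the set of the positive integers `n` with `T^j(n) = T^k(m)` for some `j ≤ C log n` and
some `k` has positive lower density. -/
theorem result_moved :
    (∃ C : ℝ, 0 < liminf (fun x : ℝ => ({n : ℕ | 0 < n ∧ (n : ℝ) ≤ x ∧
      ∃ k : ℕ, (k : ℝ) ≤ C * Real.log n ∧ T^[k] n = 1}.ncard : ℝ) / x) atTop) ∧
    ∀ m : ℕ, 0 < m → ∃ C : ℝ, 0 < liminf (fun x : ℝ => ({n : ℕ | 0 < n ∧ (n : ℝ) ≤ x ∧
      ∃ j k : ℕ, (j : ℝ) ≤ C * Real.log n ∧ T^[j] n = T^[k] m}.ncard : ℝ) / x) atTop := by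
  refine ⟨reach 1 one_pos (by norm_num), fun m hm => ?_⟩
  obtain ⟨i, hi1, hi2⟩ := exists_prime_to_three m hm
  obtain ⟨c, C, X0, hc, _, h⟩ := Pool.Agent.H366R2.PDK.dens_nat
    Pool.Agent.H366R2.PDK.decay (T^[i] m) hi1 hi2
  refine ⟨C, Pool.Agent.H366R2.PDK.liminf_nat_of
    (fun n => ∃ j k : ℕ, (j : ℝ) ≤ C * Real.log n ∧ T^[j] n = T^[k] m) (X0 := X0) hc
    fun X hX => ?_⟩
  obtain ⟨S, hS, hcard⟩ := h X hX
  refine ⟨S, fun n hn => ?_, hcard⟩
  obtain ⟨h1, h2, _, j, h3, h4⟩ := hS n hn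
  exact ⟨h1, h2, j, i, h3, h4⟩

end Pool.Agent.H499R2.Moved.PositiveProportion2d22
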