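import Mathlib
import Pool.Agent.H499R2.CO.R6
import Pool.Agent.H499R2.NDCol

set_option autoImplicit false

/-! Sparse sufficient sets for the total stopping times of the Collatz function. -/

namespace Pool.Agent.Results.MP_e43fce_nt.SufficientSets

open Filter Topology

/-- the Collatz function -/
def C (n : ℕ) : ℕ := if n % 2 = 0 then n / 2 else 3 * n + 1

/-- the total stopping time `l(n)`, the least `k ≥ 0` with `C^k(n) = 1`, and `⊤ = ∞` if there is none -/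
noncomputable def l (n : ℕ) : ℕ∞ := sInf {k : ℕ∞ | ∃ j : ℕ, C^[j] n = 1 ∧ k = j}

/-- the positive integers with the property `P` have the natural density `δ` -/
def HasDensity (P : ℕ → Prop) (δ : ℝ) : Prop :=
  Tendsto (fun N : ℕ => ({n : ℕ | 1 ≤ n ∧ n ≤ N ∧ P n}.ncard : ℝ) / N) atTop (𝓝 δ)

theorem l_eq {n k : ℕ} (h : C^[k] n = 1 ∧ ∀ j < k, C^[j] n ≠ 1) : l n = k := by
  unfold l
  apply le_antisymm
  · exact sInf_le ⟨k, h.1, rfl⟩
  · refine le_sInf ?_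
    rintro _ ⟨j, hj, rfl⟩
    have : k ≤ j := by
      by_contra hlt
      exact h.2 j (by omega) hj
    exact_mod_cast this

theorem l_lt {n : ℕ} (h : ∃ k, C^[k] n = 1) : l n < ⊤ := by
  obtain ⟨k, hk⟩ := h
  exact lt_of_le_of_lt (sInf_le ⟨k, hk, rfl⟩) (ENat.natCast_lt_top k)

theorem of_l_lt {n : ℕ} (h : l n < ⊤) : ∃ k, C^[k] n = 1 := by
  by_contra hcon
  push Not at hcon
  have : {k : ℕ∞ | ∃ j : ℕ, C^[j] n = 1 ∧ k = j} = ∅ := by
    rw [Set.eq_empty_iff_forall_notMem]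
    rintro k ⟨j, hj, _⟩
    exact hcon j hj
  unfold l at h
  rw [this, sInf_empty] at h
  exact lt_irrefl _ h

theorem reaches_C (n : ℕ) : (∃ k, C^[k] n = 1) ↔ ∃ k, C^[k] (C n) = 1 := by
  constructor
  · rintro ⟨k, hk⟩
    rcases k with _ | k
    · have h1 : n = 1 := hk
      subst h1
      exact ⟨2, by decide⟩
    · exact ⟨k, by rwa [Function.iterate_succ_apply] at hk⟩
  · rintro ⟨k, hk⟩
    exact ⟨k + 1, by rwa [Function.iterate_succ_apply]⟩

theorem reaches_T (n : ℕ) : (∃ k, C^[k] n = 1) ↔ ∃ k, C^[k] (Pool.Agent.H499R2.ND.Tn n) = 1 := by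
  unfold Pool.Agent.H499R2.ND.Tn
  rcases Nat.mod_two_eq_zero_or_one n with h | h
  · rw [if_pos h, reaches_C n]
    have : C n = n / 2 := by simp [C, h]
    rw [this]
  · rw [if_neg (by omega), reaches_C n, reaches_C (C n)]
    have h1 : C n = 3 * n + 1 := by simp [C, h]
    have h2 : C (3 * n + 1) = (3 * n + 1) / 2 := by
      unfold C; rw [if_pos (by omega)]
    rw [h1, h2]

/-- SUFFICIENT SETS. Let `g n = o(√(log n) / log log n)` and let the set `W` meet the interval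
`[n, n + g n]` for every large `n`. If `l(w) ≤ w` (or only `l(w) < ∞`) for all large `w` in `W`, then
`l(n) < ∞` for every `n ≥ 1`, and for every `ε > 0` almost all `n` satisfy `l(n) ≤ n` and
`|l(n) - 3 / log (4/3) * log n| ≤ ε log n`. -/
theorem result (g : ℕ → ℕ)
    (hg : Tendsto (fun n : ℕ => (g n : ℝ) * Real.log (Real.log n) / √ (Real.log n)) atTop (𝓝 0))
    (W : Set ℕ) (hW : ∀ᶠ n : ℕ in atTop, ∃ j ≤ g n, n + j ∈ W)
    (h : ∀ᶠ n : ℕ in atTop, n ∈ W → l n < ⊤) :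
    (∀ n : ℕ, 1 ≤ n → l n < ⊤) ∧
    ∀ ε : ℝ, 0 < ε → HasDensity (fun n => ∃ k : ℕ, l n = k ∧ k ≤ n ∧
      |(k : ℝ) - 3 / Real.log (4 / 3) * Real.log n| ≤ ε * Real.log n) 1 := by
  set P : ℕ → Prop := fun n => ∃ k, C^[k] n = 1 with hPdef
  have hinv : ∀ n, 1 ≤ n → (P n ↔ P (Pool.Agent.H499R2.ND.Tn n)) := fun n _ => reaches_T n
  obtain ⟨δ, _, _, h1, _, h3⟩ := Pool.Agent.H499R2.ND.nat_density (P := P) hinv
  have h6 := (Pool.Agent.H499R2.CO.run_invN (g := g) hg hinv h1).2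
  obtain ⟨N1, hN1⟩ := eventually_atTop.1 hW
  obtain ⟨N2, hN2⟩ := eventually_atTop.1 h
  have h7 : Pool.Agent.H499R2.ND.Dn (fun n => ∀ h : ℕ, h ≤ g n → ¬ P (n + h)) 0 := by
    refine Pool.Agent.H499R2.ND.zd_mono (Pool.Agent.H499R2.ND.zd_bdd (max N1 N2 : ℕ)) fun n hn hno => ?_
    by_contra hlt
    rw [not_le] at hlt
    have hlt' : max N1 N2 < n := by exact_mod_cast hlt
    obtain ⟨j, hj, hjW⟩ := hN1 n ((le_max_left _ _).trans hlt'.le)
    have h8 := hN2 (n + j) (((le_max_right _ _).trans hlt'.le).trans (Nat.le_add_right _ _)) hjW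
    exact hno j hj (of_l_lt h8)
  have h8 : 1 - δ = 0 := tendsto_nhds_unique h6 h7
  have hall : ∀ n, 1 ≤ n → P n := h3.1 (by linarith)
  refine ⟨fun n hn => l_lt (hall n hn), fun ε hε => ?_⟩
  obtain ⟨β, _, _, hβ1, hβ⟩ := Pool.Agent.H499R2.ND.Bas_density
  have hβ2 : β = 1 := hβ1.2 fun n hn => by
    obtain ⟨k, hk⟩ := hall n hn
    exact Pool.Agent.H499R2.ND.bas_of_CN k n hn hk
  have h9 := Pool.Agent.H499R2.ND.bas_C hβ hε
  rw [hβ2] at h9
  refine Pool.Agent.H499R2.CO.HD_congr h9 h9 fun n hn hE => ⟨fun _ => ?_, fun _ => hE⟩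
  obtain ⟨k, hk1, hk2, hk3, hk4⟩ := hE
  exact ⟨k, l_eq ⟨hk1, hk2⟩, hk3, hk4⟩

end Pool.Agent.Results.MP_e43fce_nt.SufficientSets
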